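import Pool.Agent.Helper15.KO.Fin

/-!
# Every level of a line arrangement:
`e_k(n) ≥ n * m ^ (c * (log log log m) ^ 2 / (log log m) ^ 3)`, `m = min (k, n - k)`

`height`, `level`, `kLevel`, `IsVertex`, `complexity` and `e` are defined in
`KLev/Levels.lean` (namespace `KLev.Levels`).
-/

namespace Pool.Agent.Results.MP_a08d0a_co.CubeOfLogLog

open KLev

/-- There are constants `c > 0` and `k₀` such that for all `n` and all `k` with `k₀ ≤ k ≤ n - k₀`,
with `m = min k (n - k)`, some arrangement of `n` lines has a `k`-level with at least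
`n * m ^ (c * (log log log m) ^ 2 / (log log m) ^ 3)` vertices. -/
theorem result : ∃ c : ℝ, 0 < c ∧ ∃ k₀ : ℕ, ∀ n k : ℕ, k₀ ≤ k → k + k₀ ≤ n →
    (n : ℝ) * ((min k (n - k) : ℕ) : ℝ) ^
      (c * (Real.log (Real.log (Real.log ((min k (n - k) : ℕ) : ℝ)))) ^ 2 /
        (Real.log (Real.log ((min k (n - k) : ℕ) : ℝ))) ^ 3) ≤ (Levels.e k n : ℝ) :=
  Pool.Agent.Helper15.KO.all_levelsO

end Pool.Agent.Results.MP_a08d0a_co.CubeOfLogLog
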